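import Mathlib

set_option autoImplicit false

/-!
Locally checkable labelling problems and measured graphs.
-/

namespace Pool.Agent.LCL

open MeasureTheory
open scoped ENNReal

/-- The ball of radius `r` around the vertex `v` of the graph `G`. -/
def ball {V : Type} (G : SimpleGraph V) (v : V) (r : ℕ) : Set V :=
  {u | ∃ p : G.Walk v u, p.length ≤ r}

/-- The centre of a ball, as an element of the ball. -/
def center {V : Type} (G : SimpleGraph V) (v : V) (r : ℕ) : ball G v r :=
  ⟨v, SimpleGraph.Walk.nil, Nat.zero_le r⟩

/-- A finite rooted graph (on the vertex set `Fin n`) with vertices labelled by elements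
of `L`. -/
structure RootedLabelled (L : Type) where
  /-- number of vertices -/
  n : ℕ
  /-- the graph -/
  graph : SimpleGraph (Fin n)
  /-- the root -/
  root : Fin n
  /-- the labelling -/
  label : Fin n → L

/-- A locally checkable labelling problem for graphs of maximum degree at most `Δ`: a finite set
of labels, a radius, and a set of rooted labelled graphs of that radius and of maximum degree at
most `Δ`. -/
structure Problem (Δ : ℕ) where
  /-- the set of labels -/
  L : Type
  finite_labels : Finite L
  /-- the radius -/
  radius : ℕ
  /-- the allowed rooted labelled graphs -/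
  allowed : Set (RootedLabelled L)
  allowed_degree : ∀ H ∈ allowed, ∀ v, (H.graph.neighborSet v).encard ≤ Δ
  allowed_radius : ∀ H ∈ allowed, ∀ v, v ∈ ball H.graph H.root radius

/-- The labelling `c` of the graph `G` satisfies the problem `P` at the vertex `v`: the labelled
rooted ball around `v` is isomorphic to one of the allowed rooted labelled graphs. -/
def Problem.SatisfiedAt {Δ : ℕ} (P : Problem Δ) {V : Type} (G : SimpleGraph V) (c : V → P.L)
    (v : V) : Prop :=
  ∃ H ∈ P.allowed, ∃ e : (G.induce (ball G v P.radius)) ≃g H.graph,
    e (center G v P.radius) = H.root ∧ ∀ u : ball G v P.radius, H.label (e u) = c u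

/-- A measured graph of maximum degree at most `Δ`: a standard Borel space `X` with a Borel
probability measure `μ` and a Borel graph `G` with all degrees at most `Δ`, such that the
saturation of every `μ`-null set under the connectedness relation of `G` is `μ`-null. -/
structure MeasuredGraph (Δ : ℕ) where
  /-- the vertex set -/
  X : Type
  [measurableSpace : MeasurableSpace X]
  [standardBorel : StandardBorelSpace X]
  /-- the measure -/
  μ : Measure X
  [isProbability : IsProbabilityMeasure μ]
  /-- the graph -/
  G : SimpleGraph X
  borel : MeasurableSet {p : X × X | G.Adj p.1 p.2}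
  degree_le : ∀ x, (G.neighborSet x).encard ≤ Δ
  quasi_invariant : ∀ N : Set X, μ N = 0 → μ {y | ∃ x ∈ N, G.Reachable x y} = 0

attribute [instance] MeasuredGraph.measurableSpace MeasuredGraph.standardBorel
  MeasuredGraph.isProbability

/-- The mass transport principle. -/
def MeasuredGraph.MassTransport {Δ : ℕ} (M : MeasuredGraph Δ) : Prop :=
  ∀ f : M.X → M.X → ℝ≥0∞, Measurable (Function.uncurry f) →
    ∫⁻ x, ∑' y : {y // M.G.Reachable x y}, f x y ∂M.μ =
      ∫⁻ x, ∑' y : {y // M.G.Reachable x y}, f y x ∂M.μ

/-- The problem `P` is solvable on the measured graph `M`: some Borel labelling satisfies `P` at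
almost every vertex. -/
def Problem.SolvableOn {Δ : ℕ} (P : Problem Δ) (M : MeasuredGraph Δ) : Prop :=
  ∃ c : M.X → P.L, (∀ l, MeasurableSet (c ⁻¹' {l})) ∧ ∀ᵐ v ∂M.μ, P.SatisfiedAt M.G c v

end Pool.Agent.LCL
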