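import Mathlib
import Pool.Agent.LCL.Defs

set_option autoImplicit false

/-!
The local rule behind the problem, and its locality.
-/

namespace Pool.Agent.LCL

/-- The vertex `v` has degree `k`. -/
def HasDeg {V : Type} (G : SimpleGraph V) (v : V) (k : ℕ) : Prop := (G.neighborSet v).encard = k

/-- `z` is a child of `v`: there is a path `v, m, d, z` with `m` of degree 2 and `d` of
degree 3. -/
def Child {V : Type} (G : SimpleGraph V) (v z : V) : Prop :=
  ∃ m d, G.Adj v m ∧ G.Adj m d ∧ G.Adj d z ∧ v ≠ d ∧ m ≠ z ∧ HasDeg G m 2 ∧ HasDeg G d 3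

/-- `v` has degree 4, at least two children and at most one parent. -/
def Regular {V : Type} (G : SimpleGraph V) (v : V) : Prop :=
  HasDeg G v 4 ∧ (∃ z z', z ≠ z' ∧ Child G v z ∧ Child G v z') ∧
    ∀ y y', Child G y v → Child G y' v → y = y'

/-- The labels: a bit and a residue modulo 3. -/
abbrev Lab : Type := Bool × ZMod 3

/-- The local rule at the vertex `v`. -/
def Rule {V : Type} (G : SimpleGraph V) (c : V → Lab) (v : V) : Prop :=
  Regular G v → (∀ y, G.Adj v y → HasDeg G y 4 → (c y).1 = (c v).1) ∧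
    ((∃ z, Child G v z ∧ (c z).1 ≠ (c v).1) ∨
      ∃ y, G.Adj v y ∧ HasDeg G y 4 ∧ (c y).2 + 1 = (c v).2)

section
variable {V W : Type} {G : SimpleGraph V} {K : SimpleGraph W} (f : K ↪g G)

theorem hasDeg_iff {w : W} (hw : ∀ u, G.Adj (f w) u → u ∈ Set.range f) (k : ℕ) :
    HasDeg K w k ↔ HasDeg G (f w) k := by
  have h1 : f '' (K.neighborSet w) = G.neighborSet (f w) := by
    ext u
    constructor
    · rintro ⟨x, hx, rfl⟩
      exact f.map_adj_iff.mpr hx
    · intro hu
      obtain ⟨x, rfl⟩ := hw u hu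
      exact ⟨x, f.map_adj_iff.mp hu, rfl⟩
  unfold HasDeg
  rw [← h1, f.injective.encard_image]

theorem child_iff {v z : W}
    (h1 : ∀ u, G.Adj (f v) u → u ∈ Set.range f)
    (h2 : ∀ u u', G.Adj (f v) u → G.Adj u u' → u' ∈ Set.range f)
    (h3 : ∀ u u' u'', G.Adj (f v) u → G.Adj u u' → G.Adj u' u'' → u'' ∈ Set.range f) :
    Child K v z ↔ Child G (f v) (f z) := by
  constructor
  · rintro ⟨m, d, a1, a2, a3, n1, n2, d1, d2⟩
    have b1 := f.map_adj_iff.mpr a1
    have b2 := f.map_adj_iff.mpr a2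
    refine ⟨f m, f d, b1, b2, f.map_adj_iff.mpr a3, fun h => n1 (f.injective h),
      fun h => n2 (f.injective h), ?_, ?_⟩
    · exact (hasDeg_iff f (fun u hu => h2 _ u b1 hu) 2).mp d1
    · exact (hasDeg_iff f (fun u hu => h3 _ _ u b1 b2 hu) 3).mp d2
  · rintro ⟨m, d, a1, a2, a3, n1, n2, d1, d2⟩
    obtain ⟨m, rfl⟩ := h1 _ a1
    obtain ⟨d, rfl⟩ := h2 _ _ a1 a2
    refine ⟨m, d, f.map_adj_iff.mp a1, f.map_adj_iff.mp a2, f.map_adj_iff.mp a3,
      fun h => n1 (congrArg f h), fun h => n2 (congrArg f h), ?_, ?_⟩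
    · exact (hasDeg_iff f (fun u hu => h2 _ u a1 hu) 2).mpr d1
    · exact (hasDeg_iff f (fun u hu => h3 _ _ u a1 a2 hu) 3).mpr d2

theorem child_iff' {y v : W}
    (h1 : ∀ u, G.Adj (f v) u → u ∈ Set.range f)
    (h2 : ∀ u u', G.Adj (f v) u → G.Adj u u' → u' ∈ Set.range f)
    (h3 : ∀ u u' u'', G.Adj (f v) u → G.Adj u u' → G.Adj u' u'' → u'' ∈ Set.range f) :
    Child K y v ↔ Child G (f y) (f v) := by
  constructor
  · rintro ⟨m, d, a1, a2, a3, n1, n2, d1, d2⟩
    have b2 := f.map_adj_iff.mpr a2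
    have b3 := f.map_adj_iff.mpr a3
    refine ⟨f m, f d, f.map_adj_iff.mpr a1, b2, b3, fun h => n1 (f.injective h),
      fun h => n2 (f.injective h), ?_, ?_⟩
    · exact (hasDeg_iff f (fun u hu => h3 _ _ u b3.symm b2.symm hu) 2).mp d1
    · exact (hasDeg_iff f (fun u hu => h2 _ u b3.symm hu) 3).mp d2
  · rintro ⟨m, d, a1, a2, a3, n1, n2, d1, d2⟩
    obtain ⟨d, rfl⟩ := h1 _ a3.symm
    obtain ⟨m, rfl⟩ := h2 _ _ a3.symm a2.symm
    refine ⟨m, d, f.map_adj_iff.mp a1, f.map_adj_iff.mp a2, f.map_adj_iff.mp a3,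
      fun h => n1 (congrArg f h), fun h => n2 (congrArg f h), ?_, ?_⟩
    · exact (hasDeg_iff f (fun u hu => h3 _ _ u a3.symm a2.symm hu) 2).mpr d1
    · exact (hasDeg_iff f (fun u hu => h2 _ u a3.symm hu) 3).mpr d2

theorem regular_iff {v : W}
    (h1 : ∀ u, G.Adj (f v) u → u ∈ Set.range f)
    (h2 : ∀ u u', G.Adj (f v) u → G.Adj u u' → u' ∈ Set.range f)
    (h3 : ∀ u u' u'', G.Adj (f v) u → G.Adj u u' → G.Adj u' u'' → u'' ∈ Set.range f) :
    Regular K v ↔ Regular G (f v) := by
  unfold Regular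
  refine and_congr (hasDeg_iff f h1 4) (and_congr ?_ ?_)
  · constructor
    · rintro ⟨z, z', hne, a, b⟩
      exact ⟨f z, f z', fun h => hne (f.injective h), (child_iff f h1 h2 h3).mp a,
        (child_iff f h1 h2 h3).mp b⟩
    · rintro ⟨z, z', hne, a, b⟩
      obtain ⟨z, rfl⟩ : z ∈ Set.range f := by
        obtain ⟨m, d, a1, a2, a3, _⟩ := a
        exact h3 _ _ _ a1 a2 a3
      obtain ⟨z', rfl⟩ : z' ∈ Set.range f := by
        obtain ⟨m, d, a1, a2, a3, _⟩ := b
        exact h3 _ _ _ a1 a2 a3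
      exact ⟨z, z', fun h => hne (congrArg f h), (child_iff f h1 h2 h3).mpr a,
        (child_iff f h1 h2 h3).mpr b⟩
  · constructor
    · intro h y y' hy hy'
      obtain ⟨y, rfl⟩ : y ∈ Set.range f := by
        obtain ⟨m, d, a1, a2, a3, _⟩ := hy
        exact h3 _ _ _ a3.symm a2.symm a1.symm
      obtain ⟨y', rfl⟩ : y' ∈ Set.range f := by
        obtain ⟨m, d, a1, a2, a3, _⟩ := hy'
        exact h3 _ _ _ a3.symm a2.symm a1.symm
      exact congrArg f (h y y' ((child_iff' f h1 h2 h3).mpr hy)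
        ((child_iff' f h1 h2 h3).mpr hy'))
    · intro h y y' hy hy'
      exact f.injective (h _ _ ((child_iff' f h1 h2 h3).mp hy) ((child_iff' f h1 h2 h3).mp hy'))

/-- Locality of the rule. -/
theorem rule_iff {c : V → Lab} {c' : W → Lab} (hc : ∀ w, c' w = c (f w)) {v : W}
    (h1 : ∀ u, G.Adj (f v) u → u ∈ Set.range f)
    (h2 : ∀ u u', G.Adj (f v) u → G.Adj u u' → u' ∈ Set.range f)
    (h3 : ∀ u u' u'', G.Adj (f v) u → G.Adj u u' → G.Adj u' u'' → u'' ∈ Set.range f) :
    Rule K c' v ↔ Rule G c (f v) := by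
  unfold Rule
  refine imp_congr (regular_iff f h1 h2 h3) (and_congr ?_ (or_congr ?_ ?_))
  · constructor
    · intro h y hy hd
      obtain ⟨y, rfl⟩ := h1 _ hy
      have := h y (f.map_adj_iff.mp hy) ((hasDeg_iff f (fun u hu => h2 _ u hy hu) 4).mpr hd)
      rw [hc, hc] at this
      exact this
    · intro h y hy hd
      have hy' := f.map_adj_iff.mpr hy
      rw [hc, hc]
      exact h _ hy' ((hasDeg_iff f (fun u hu => h2 _ u hy' hu) 4).mp hd)
  · constructor
    · rintro ⟨z, hz, hne⟩
      rw [hc, hc] at hne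
      exact ⟨f z, (child_iff f h1 h2 h3).mp hz, hne⟩
    · rintro ⟨z, hz, hne⟩
      obtain ⟨z, rfl⟩ : z ∈ Set.range f := by
        obtain ⟨m, d, a1, a2, a3, _⟩ := hz
        exact h3 _ _ _ a1 a2 a3
      refine ⟨z, (child_iff f h1 h2 h3).mpr hz, ?_⟩
      rw [hc, hc]
      exact hne
  · constructor
    · rintro ⟨y, hy, hd, hne⟩
      have hy' := f.map_adj_iff.mpr hy
      rw [hc, hc] at hne
      exact ⟨f y, hy', (hasDeg_iff f (fun u hu => h2 _ u hy' hu) 4).mp hd, hne⟩
    · rintro ⟨y, hy, hd, hne⟩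
      obtain ⟨y, rfl⟩ := h1 _ hy
      refine ⟨y, f.map_adj_iff.mp hy, (hasDeg_iff f (fun u hu => h2 _ u hy hu) 4).mpr hd, ?_⟩
      rw [hc, hc]
      exact hne

end

theorem mem_ball_one {V : Type} {G : SimpleGraph V} {v u : V} (h : G.Adj v u) {r : ℕ}
    (hr : 1 ≤ r) : u ∈ ball G v r :=
  ⟨SimpleGraph.Walk.cons h SimpleGraph.Walk.nil, by simpa using hr⟩

theorem mem_ball_two {V : Type} {G : SimpleGraph V} {v u u' : V} (h : G.Adj v u)
    (h' : G.Adj u u') {r : ℕ} (hr : 2 ≤ r) : u' ∈ ball G v r :=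
  ⟨SimpleGraph.Walk.cons h (SimpleGraph.Walk.cons h' SimpleGraph.Walk.nil), by simpa using hr⟩

theorem mem_ball_three {V : Type} {G : SimpleGraph V} {v u u' u'' : V} (h : G.Adj v u)
    (h' : G.Adj u u') (h'' : G.Adj u' u'') {r : ℕ} (hr : 3 ≤ r) : u'' ∈ ball G v r :=
  ⟨SimpleGraph.Walk.cons h (SimpleGraph.Walk.cons h' (SimpleGraph.Walk.cons h''
    SimpleGraph.Walk.nil)), by simpa using hr⟩

/-- The locally checkable problem with the rule `Rule`, radius 3. -/
def theProblem (Δ : ℕ) : Problem Δ where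
  L := Lab
  finite_labels := inferInstance
  radius := 3
  allowed := {H | Rule H.graph H.label H.root ∧ (∀ v, (H.graph.neighborSet v).encard ≤ Δ) ∧
    ∀ v, v ∈ ball H.graph H.root 3}
  allowed_degree := fun _ h => h.2.1
  allowed_radius := fun _ h => h.2.2

theorem ball_finite {V : Type} {G : SimpleGraph V} (hG : ∀ v, (G.neighborSet v).Finite) (v : V)
    (r : ℕ) : (ball G v r).Finite := by
  induction r generalizing v with
  | zero =>
    refine (Set.finite_singleton v).subset ?_
    rintro u ⟨p, hp⟩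
    have := SimpleGraph.Walk.eq_of_length_eq_zero (Nat.le_zero.mp hp)
    rw [this]
    exact rfl
  | succ r ih =>
    have h1 : ball G v (r + 1) ⊆ {v} ∪ ⋃ w ∈ G.neighborSet v, ball G w r := by
      rintro u ⟨p, hp⟩
      cases p with
      | nil => exact Or.inl rfl
      | cons h q =>
        rename_i w
        refine Or.inr ?_
        rw [Set.mem_iUnion₂]
        exact ⟨w, h, q, by simpa using hp⟩
    exact ((Set.finite_singleton v).union ((hG v).biUnion fun w _ => ih w)).subset h1

/-- Walks of length at most `r` from `v` stay in the ball. -/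
theorem mem_ball_induce {V : Type} {G : SimpleGraph V} {v : V} {r : ℕ} (u : ball G v r) :
    u ∈ ball (G.induce (ball G v r)) (center G v r) r := by
  have key : ∀ (k : ℕ) (u : V) (p : G.Walk v u) (hp : p.length = k) (hk : k ≤ r),
      ∃ q : (G.induce (ball G v r)).Walk (center G v r) ⟨u, p, hp ▸ hk⟩, q.length ≤ k := by
    intro k
    induction k with
    | zero =>
      intro u p hp hk
      have := SimpleGraph.Walk.eq_of_length_eq_zero hp
      subst this
      exact ⟨SimpleGraph.Walk.nil, le_rfl⟩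
    | succ k ih =>
      intro u p hp hk
      have h1 : ∃ (w : V) (q : G.Walk v w), q.length = k ∧ G.Adj w u := by
        have h2 := p.length_reverse
        rw [hp] at h2
        cases h3 : p.reverse with
        | nil =>
          rw [h3] at h2
          simp at h2
        | cons h q =>
          rename_i w
          rw [h3] at h2
          refine ⟨w, q.reverse, ?_, h.symm⟩
          rw [SimpleGraph.Walk.length_reverse]
          simpa using h2
      obtain ⟨w, q, hq, hwu⟩ := h1
      obtain ⟨q', hq'⟩ := ih w q hq (by omega)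
      have hadj : (G.induce (ball G v r)).Adj ⟨w, q, by omega⟩ ⟨u, p, hp ▸ hk⟩ := hwu
      refine ⟨q'.concat hadj, ?_⟩
      rw [SimpleGraph.Walk.length_concat]
      omega
  obtain ⟨u, p, hp⟩ := u
  obtain ⟨q, hq⟩ := key p.length u p rfl hp
  exact ⟨q, hq.trans hp⟩

/-- In a graph of maximum degree at most `Δ`, satisfaction of the problem at a vertex is the
same as validity of the rule there. -/
theorem satisfiedAt_iff {Δ : ℕ} {V : Type} {G : SimpleGraph V}
    (hG : ∀ v, (G.neighborSet v).encard ≤ Δ) (c : V → Lab) (v : V) :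
    (theProblem Δ).SatisfiedAt G c v ↔ Rule G c v := by
  have hfin : ∀ v, (G.neighborSet v).Finite := fun v => Set.finite_of_encard_le_coe (hG v)
  constructor
  · rintro ⟨H, hH, e, he, hl⟩
    have hcv : ((e.symm H.root : ball G v 3) : V) = v := by
      have : e.symm H.root = center G v 3 := by
        rw [← he]
        exact e.symm_apply_apply _
      rw [this]
      rfl
    let f : H.graph ↪g G := (SimpleGraph.Embedding.induce (ball G v 3)).comp e.symm.toEmbedding
    have hf : ∀ w, f w = ((e.symm w : ball G v 3) : V) := fun w => rfl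
    have hfv : f H.root = v := hcv
    have hr : ∀ u, u ∈ ball G v 3 → u ∈ Set.range f := by
      intro u hu
      refine ⟨e ⟨u, hu⟩, ?_⟩
      rw [hf]
      have : e.symm (e ⟨u, hu⟩) = ⟨u, hu⟩ := e.symm_apply_apply _
      rw [this]
    have h1 := (rule_iff f (c := c) (c' := H.label) (v := H.root) ?_ ?_ ?_ ?_).mp hH.1
    · rw [hfv] at h1
      exact h1
    · intro w
      have h2 := hl (e.symm w)
      have h3 : e (e.symm w) = w := e.apply_symm_apply _
      rw [h3] at h2
      exact h2
    · intro u hu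
      rw [hfv] at hu
      exact hr u (mem_ball_one hu (by norm_num))
    · intro u u' hu hu'
      rw [hfv] at hu
      exact hr u' (mem_ball_two hu hu' (by norm_num))
    · intro u u' u'' hu hu' hu''
      rw [hfv] at hu
      exact hr u'' (mem_ball_three hu hu' hu'' le_rfl)
  · intro hrule
    have : Finite (ball G v 3) := (ball_finite hfin v 3).to_subtype
    obtain ⟨n, ⟨e⟩⟩ := Finite.exists_equiv_fin (ball G v 3)
    let K : SimpleGraph (Fin n) := (G.induce (ball G v 3)).map e.toEmbedding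
    let e' : (G.induce (ball G v 3)) ≃g K := SimpleGraph.Iso.map e _
    have he' : ∀ u, e' u = e u := fun u => rfl
    refine ⟨⟨n, K, e (center G v 3), fun w => c (e.symm w)⟩, ⟨?_, ?_, ?_⟩, e', rfl, ?_⟩
    · let f : K ↪g G := (SimpleGraph.Embedding.induce (ball G v 3)).comp e'.symm.toEmbedding
      have hfr : f (e (center G v 3)) = v := by
        change ((e'.symm (e' (center G v 3)) : ball G v 3) : V) = v
        rw [show e'.symm (e' (center G v 3)) = center G v 3 from e'.symm_apply_apply _]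
        rfl
      have hr : ∀ u, u ∈ ball G v 3 → u ∈ Set.range f := by
        intro u hu
        refine ⟨e ⟨u, hu⟩, ?_⟩
        change ((e'.symm (e' ⟨u, hu⟩) : ball G v 3) : V) = u
        rw [show e'.symm (e' ⟨u, hu⟩) = ⟨u, hu⟩ from e'.symm_apply_apply _]
      refine (rule_iff f (c := c) (v := e (center G v 3)) ?_ ?_ ?_ ?_).mpr ?_
      · intro w
        rfl
      · intro u hu
        rw [hfr] at hu
        exact hr u (mem_ball_one hu (by norm_num))
      · intro u u' hu hu'
        rw [hfr] at hu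
        exact hr u' (mem_ball_two hu hu' (by norm_num))
      · intro u u' u'' hu hu' hu''
        rw [hfr] at hu
        exact hr u'' (mem_ball_three hu hu' hu'' le_rfl)
      · rw [hfr]
        exact hrule
    · intro w
      let f : K ↪g G := (SimpleGraph.Embedding.induce (ball G v 3)).comp e'.symm.toEmbedding
      have h1 : f '' (K.neighborSet w) ⊆ G.neighborSet (f w) := by
        rintro _ ⟨x, hx, rfl⟩
        exact f.map_adj_iff.mpr hx
      have h2 := Set.encard_le_encard h1
      change (K.neighborSet w).encard ≤ Δ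
      rw [f.injective.encard_image] at h2
      exact h2.trans (hG _)
    · intro w
      obtain ⟨q, hq⟩ := mem_ball_induce (e.symm w)
      have h2 : e' (e.symm w) = w := e.apply_symm_apply w
      have h0 : (q.map e'.toHom).length ≤ 3 := by
        rw [SimpleGraph.Walk.length_map]
        exact hq
      have h3 : ∃ p : K.Walk (e (center G v 3)) (e' (e.symm w)), p.length ≤ 3 :=
        ⟨q.map e'.toHom, h0⟩
      rw [h2] at h3
      exact h3
    · intro u
      exact congrArg (fun z : ball G v 3 => c z) (e.symm_apply_apply u)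

end Pool.Agent.LCL
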