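import Mathlib
import Pool.Agent.Lib.BorelProj
import Pool.Agent.LCL.Local

set_option autoImplicit false
set_option linter.unusedSectionVars false

/-!
Borel sets attached to a Borel graph of bounded degree.
-/

namespace Pool.Agent.LCL

open MeasureTheory Pool.Agent.Lib

variable {X : Type} [MeasurableSpace X] [StandardBorelSpace X]

/-- A Borel relation whose sections have bounded finite size. -/
def BRel (R : X → X → Prop) : Prop :=
  MeasurableSet {p : X × X | R p.1 p.2} ∧
    ∃ K : ℕ, ∀ x, ∃ s : Finset X, s.card ≤ K ∧ ∀ y, R x y → y ∈ s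

theorem encard_le_of_finset {Y : Type} {A : Set Y} {s : Finset Y} {K : ℕ} (hs : s.card ≤ K)
    (h : ∀ y ∈ A, y ∈ s) : A.encard ≤ K := by
  have h1 : A ⊆ (s : Set Y) := h
  refine (Set.encard_le_encard h1).trans ?_
  rw [Set.encard_coe_eq_coe_finsetCard]
  exact_mod_cast hs

theorem BRel.exists_mem {R : X → X → Prop} (hR : BRel R) {S : Set X} (hS : MeasurableSet S) :
    MeasurableSet {x | ∃ y, R x y ∧ y ∈ S} := by
  obtain ⟨hm, K, hK⟩ := hR
  refine measurableSet_exists_of_encard_le K (B := {p : X × X | R p.1 p.2 ∧ p.2 ∈ S})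
    (hm.inter (measurable_snd hS)) ?_
  intro x
  obtain ⟨s, hs, h⟩ := hK x
  exact encard_le_of_finset hs fun y hy => h y hy.1

theorem BRel.exists_pair {R : X → X → Prop} (hR : BRel R) :
    MeasurableSet {x | ∃ z z', z ≠ z' ∧ R x z ∧ R x z'} := by
  classical
  obtain ⟨hm, K, hK⟩ := hR
  have h1 : MeasurableSet {q : X × (X × X) | q.2.1 ≠ q.2.2 ∧ R q.1 q.2.1 ∧ R q.1 q.2.2} := by
    refine MeasurableSet.inter ?_ (MeasurableSet.inter ?_ ?_)
    · exact (measurableSet_eq_fun (by fun_prop) (by fun_prop)).compl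
    · have : Measurable (fun q : X × (X × X) => (q.1, q.2.1)) := by fun_prop
      exact this hm
    · have : Measurable (fun q : X × (X × X) => (q.1, q.2.2)) := by fun_prop
      exact this hm
  have h2 := measurableSet_exists_of_encard_le (K * K) h1 (by
    intro x
    obtain ⟨s, hs, h⟩ := hK x
    refine encard_le_of_finset (s := s ×ˢ s) ?_ ?_
    · rw [Finset.card_product]
      exact Nat.mul_le_mul hs hs
    · rintro ⟨z, z'⟩ ⟨_, hz, hz'⟩
      exact Finset.mem_product.mpr ⟨h _ hz, h _ hz'⟩)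
  refine (congrArg MeasurableSet ?_).mpr h2
  ext x
  constructor
  · rintro ⟨z, z', hh⟩
    exact ⟨(z, z'), hh⟩
  · rintro ⟨⟨z, z'⟩, hh⟩
    exact ⟨z, z', hh⟩

variable {G : SimpleGraph X} {Δ : ℕ} (hB : MeasurableSet {p : X × X | G.Adj p.1 p.2})
  (hG : ∀ v, (G.neighborSet v).encard ≤ Δ)

include hB hG

omit [MeasurableSpace X] [StandardBorelSpace X] hB in
theorem exists_nbr_finset (x : X) : ∃ s : Finset X, s.card ≤ Δ ∧ ∀ y, G.Adj x y ↔ y ∈ s := by
  have hfin := Set.finite_of_encard_le_coe (hG x)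
  refine ⟨hfin.toFinset, ?_, ?_⟩
  · have h1 := hG x
    rw [hfin.encard_eq_coe_toFinset_card] at h1
    exact_mod_cast h1
  · intro y
    rw [Set.Finite.mem_toFinset]
    exact Iff.rfl

theorem brel_adj : BRel G.Adj := by
  refine ⟨hB, Δ, fun x => ?_⟩
  obtain ⟨s, hs, h⟩ := exists_nbr_finset hG x
  exact ⟨s, hs, fun y hy => (h y).mp hy⟩

theorem measurableSet_deg_ge (k : ℕ) :
    MeasurableSet {x | (k : ℕ∞) ≤ (G.neighborSet x).encard} := by
  classical
  have ha : MeasurableSet {q : X × (Fin k → X) | ∀ i, G.Adj q.1 (q.2 i)} := by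
    have : {q : X × (Fin k → X) | ∀ i, G.Adj q.1 (q.2 i)} =
        ⋂ i, {q : X × (Fin k → X) | G.Adj q.1 (q.2 i)} := by
      ext q
      simp
    rw [this]
    refine MeasurableSet.iInter fun i => ?_
    have : Measurable (fun q : X × (Fin k → X) => (q.1, q.2 i)) := by fun_prop
    exact this hB
  have hb : MeasurableSet {q : X × (Fin k → X) | Function.Injective q.2} := by
    have : {q : X × (Fin k → X) | Function.Injective q.2} =
        ⋂ i, ⋂ j, {q : X × (Fin k → X) | q.2 i = q.2 j → i = j} := by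
      ext q
      simp only [Function.Injective, Set.mem_iInter, Set.mem_ofPred_eq]
    rw [this]
    refine MeasurableSet.iInter fun i => MeasurableSet.iInter fun j => ?_
    by_cases hij : i = j
    · simp only [hij, implies_true]
      exact MeasurableSet.univ
    · simp only [hij, imp_false]
      exact (measurableSet_eq_fun (by fun_prop) (by fun_prop)).compl
  have h1 : MeasurableSet {q : X × (Fin k → X) | (∀ i, G.Adj q.1 (q.2 i)) ∧
      Function.Injective q.2} := ha.inter hb
  have h2 := measurableSet_exists_of_encard_le (Δ ^ k) h1 (by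
    intro x
    obtain ⟨s, hs, h⟩ := exists_nbr_finset hG x
    refine encard_le_of_finset (s := Fintype.piFinset fun _ : Fin k => s) ?_ ?_
    · rw [Fintype.card_piFinset_const]
      exact Nat.pow_le_pow_left hs k
    · intro t ht
      rw [Fintype.mem_piFinset]
      exact fun i => (h _).mp (ht.1 i))
  refine (congrArg MeasurableSet ?_).mpr h2
  ext x
  constructor
  · intro hx
    obtain ⟨t, ht, htc⟩ := Set.exists_subset_encard_eq hx
    have hfin : t.Finite := Set.finite_of_encard_eq_coe htc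
    have hcard : hfin.toFinset.card = k := by
      have := hfin.encard_eq_coe_toFinset_card
      rw [htc] at this
      exact_mod_cast this.symm
    let e := hfin.toFinset.equivFinOfCardEq hcard
    refine ⟨fun i => (e.symm i : X), fun i => ?_, fun i j hij => ?_⟩
    · exact ht (hfin.mem_toFinset.mp (e.symm i).2)
    · exact e.symm.injective (Subtype.ext hij)
  · rintro ⟨s, hs, hinj⟩
    have h3 : Set.range s ⊆ G.neighborSet x := by
      rintro _ ⟨i, rfl⟩
      exact hs i
    have h4 : (Set.range s).encard = k := by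
      rw [← Set.image_univ, hinj.encard_image, Set.encard_univ]
      simp
    change (k : ℕ∞) ≤ (G.neighborSet x).encard
    rw [← h4]
    exact Set.encard_le_encard h3

theorem measurableSet_hasDeg (k : ℕ) : MeasurableSet {x | HasDeg G x k} := by
  have h1 := (measurableSet_deg_ge hB hG k).diff (measurableSet_deg_ge hB hG (k + 1))
  refine (congrArg MeasurableSet ?_).mpr h1
  ext x
  change (G.neighborSet x).encard = k ↔ (k : ℕ∞) ≤ (G.neighborSet x).encard ∧
    ¬ ((k + 1 : ℕ) : ℕ∞) ≤ (G.neighborSet x).encard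
  have hfin := Set.finite_of_encard_le_coe (hG x)
  rw [hfin.encard_eq_coe_toFinset_card]
  norm_cast
  omega

theorem brel_four : BRel (fun x y => G.Adj x y ∧ HasDeg G x 4 ∧ HasDeg G y 4) := by
  obtain ⟨h1, K, h2⟩ := brel_adj hB hG
  refine ⟨h1.inter ((measurable_fst (measurableSet_hasDeg hB hG 4)).inter
    (measurable_snd (measurableSet_hasDeg hB hG 4))), K, fun x => ?_⟩
  obtain ⟨s, hs, h⟩ := h2 x
  exact ⟨s, hs, fun y hy => h y hy.1⟩

theorem measurableSet_child : MeasurableSet {p : X × X | Child G p.1 p.2} := by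
  classical
  have h1 : MeasurableSet {q : (X × X) × (X × X) | G.Adj q.1.1 q.2.1 ∧ G.Adj q.2.1 q.2.2 ∧
      G.Adj q.2.2 q.1.2 ∧ q.1.1 ≠ q.2.2 ∧ q.2.1 ≠ q.1.2 ∧ HasDeg G q.2.1 2 ∧
      HasDeg G q.2.2 3} := by
    refine MeasurableSet.inter ?_ (MeasurableSet.inter ?_ (MeasurableSet.inter ?_
      (MeasurableSet.inter ?_ (MeasurableSet.inter ?_ (MeasurableSet.inter ?_ ?_)))))
    · have : Measurable (fun q : (X × X) × (X × X) => (q.1.1, q.2.1)) := by fun_prop
      exact this hB
    · have : Measurable (fun q : (X × X) × (X × X) => (q.2.1, q.2.2)) := by fun_prop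
      exact this hB
    · have : Measurable (fun q : (X × X) × (X × X) => (q.2.2, q.1.2)) := by fun_prop
      exact this hB
    · exact (measurableSet_eq_fun (by fun_prop) (by fun_prop)).compl
    · exact (measurableSet_eq_fun (by fun_prop) (by fun_prop)).compl
    · have : Measurable (fun q : (X × X) × (X × X) => q.2.1) := by fun_prop
      exact this (measurableSet_hasDeg hB hG 2)
    · have : Measurable (fun q : (X × X) × (X × X) => q.2.2) := by fun_prop
      exact this (measurableSet_hasDeg hB hG 3)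
  have h2 := measurableSet_exists_of_encard_le (Δ * Δ) h1 (by
    rintro ⟨v, z⟩
    obtain ⟨s, hs, h⟩ := exists_nbr_finset hG v
    choose t ht ht' using exists_nbr_finset hG
    refine encard_le_of_finset (s := s.biUnion fun m => (t m).image fun d => (m, d)) ?_ ?_
    · refine (Finset.card_biUnion_le_card_mul _ _ Δ ?_).trans (Nat.mul_le_mul_right _ hs)
      intro m _
      exact Finset.card_image_le.trans (ht m)
    · rintro ⟨m, d⟩ hmd
      rw [Finset.mem_biUnion]
      exact ⟨m, (h m).mp hmd.1, Finset.mem_image.mpr ⟨d, (ht' m d).mp hmd.2.1, rfl⟩⟩)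
  refine (congrArg MeasurableSet ?_).mpr h2
  ext ⟨v, z⟩
  constructor
  · rintro ⟨m, d, hh⟩
    exact ⟨(m, d), hh⟩
  · rintro ⟨⟨m, d⟩, hh⟩
    exact ⟨m, d, hh⟩

omit [MeasurableSpace X] [StandardBorelSpace X] hB in
theorem exists_three_finset (x : X) : ∃ s : Finset X, s.card ≤ Δ * Δ * Δ ∧
    ∀ a b y, G.Adj x a → G.Adj a b → G.Adj b y → y ∈ s := by
  classical
  choose t ht ht' using exists_nbr_finset hG
  refine ⟨((t x).biUnion t).biUnion t, ?_, ?_⟩
  · refine (Finset.card_biUnion_le_card_mul _ _ Δ fun m _ => ht m).trans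
      (Nat.mul_le_mul_right _ ?_)
    exact (Finset.card_biUnion_le_card_mul _ _ Δ fun m _ => ht m).trans
      (Nat.mul_le_mul_right _ (ht x))
  · intro a b y ha hb hy
    rw [Finset.mem_biUnion]
    refine ⟨b, ?_, (ht' _ _).mp hy⟩
    rw [Finset.mem_biUnion]
    exact ⟨a, (ht' _ _).mp ha, (ht' _ _).mp hb⟩

theorem brel_child : BRel (Child G) := by
  refine ⟨measurableSet_child hB hG, Δ * Δ * Δ, fun x => ?_⟩
  obtain ⟨s, hs, h⟩ := exists_three_finset hG x
  refine ⟨s, hs, ?_⟩
  rintro y ⟨m, d, a1, a2, a3, _⟩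
  exact h _ _ _ a1 a2 a3

theorem brel_parent : BRel (fun x y => Child G y x) := by
  refine ⟨measurable_swap (measurableSet_child hB hG), Δ * Δ * Δ, fun x => ?_⟩
  obtain ⟨s, hs, h⟩ := exists_three_finset hG x
  refine ⟨s, hs, ?_⟩
  rintro y ⟨m, d, a1, a2, a3, _⟩
  exact h _ _ _ a3.symm a2.symm a1.symm

theorem measurableSet_regular : MeasurableSet {x | Regular G x} := by
  have h1 := (measurableSet_hasDeg hB hG 4).inter
    ((brel_child hB hG).exists_pair.diff (brel_parent hB hG).exists_pair)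
  refine (congrArg MeasurableSet ?_).mpr h1
  ext x
  constructor
  · rintro ⟨a, b, c⟩
    refine ⟨a, b, ?_⟩
    rintro ⟨z, z', hne, hz, hz'⟩
    exact hne (c z z' hz hz')
  · rintro ⟨a, b, c⟩
    refine ⟨a, b, ?_⟩
    intro z z' hz hz'
    by_contra hne
    exact c ⟨z, z', hne, hz, hz'⟩

end Pool.Agent.LCL
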