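import Mathlib
import Pool.Agent.LCL.Local

set_option autoImplicit false
set_option linter.unusedSectionVars false

/-!
A quasi-invariant measured graph on which the problem is not solvable.
-/

namespace Pool.Agent.LCL

open MeasureTheory
open scoped ENNReal

/-- The circle. -/
abbrev Circ : Type := UnitAddCircle

/-- The rotation number, as a point of the circle. -/
noncomputable def th : Circ := ((Real.sqrt 2 : ℝ) : Circ)

theorem addOrderOf_th : addOrderOf th = 0 := by
  rw [← AddCircle.denseRange_zsmul_iff]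
  unfold th
  rw [AddCircle.denseRange_zsmul_coe_iff]
  simpa using irrational_sqrt_two

theorem nsmul_th_ne {n : ℕ} (hn : 0 < n) : n • th ≠ 0 := by
  intro h
  have h1 := addOrderOf_dvd_of_nsmul_eq_zero h
  rw [addOrderOf_th, zero_dvd_iff] at h1
  omega

theorem th_ne : th ≠ 0 := by
  have := nsmul_th_ne (n := 1) one_pos
  rwa [one_smul] at this

theorem ergodic_th : Ergodic (fun x : Circ => x + th) :=
  AddCircle.ergodic_add_right.mpr addOrderOf_th

theorem ergodic_three_th : Ergodic (fun x : Circ => x + 3 • th) := by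
  refine AddCircle.ergodic_add_right.mpr ?_
  rw [addOrderOf_eq_zero_iff']
  intro n hn
  rw [smul_smul]
  exact nsmul_th_ne (by omega)

/-- The point of order two. -/
noncomputable def half : Circ := ((1 / 2 : ℝ) : Circ)

theorem half_ne : half ≠ 0 := by
  intro h
  unfold half at h
  rw [AddCircle.coe_eq_zero_iff] at h
  obtain ⟨n, hn⟩ := h
  rw [zsmul_eq_mul, mul_one] at hn
  have h2 : ((2 * n : ℤ) : ℝ) = (1 : ℤ) := by
    push_cast
    linarith
  have h3 : 2 * n = 1 := by exact_mod_cast h2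
  omega

theorem two_half : 2 • half = 0 := by
  unfold half
  rw [← AddCircle.coe_nsmul, AddCircle.coe_eq_zero_iff]
  exact ⟨1, by norm_num⟩

theorem two_nsmul_eq_zero {x : Circ} (h : 2 • x = 0) : x = 0 ∨ x = half := by
  induction x using QuotientAddGroup.induction_on with
  | H r =>
    change 2 • ((r : ℝ) : Circ) = 0 at h
    rw [← AddCircle.coe_nsmul, AddCircle.coe_eq_zero_iff] at h
    obtain ⟨n, hn⟩ := h
    rw [zsmul_eq_mul, mul_one, nsmul_eq_mul] at hn
    push_cast at hn
    rcases Int.even_or_odd' n with ⟨k, hk | hk⟩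
    · left
      change ((r : ℝ) : Circ) = 0
      rw [AddCircle.coe_eq_zero_iff]
      refine ⟨k, ?_⟩
      rw [zsmul_eq_mul, mul_one]
      rw [hk] at hn
      push_cast at hn
      linarith
    · right
      change ((r : ℝ) : Circ) = ((1 / 2 : ℝ) : Circ)
      rw [← sub_eq_zero, ← AddCircle.coe_sub, AddCircle.coe_eq_zero_iff]
      refine ⟨k, ?_⟩
      rw [zsmul_eq_mul, mul_one]
      rw [hk] at hn
      push_cast at hn
      linarith

theorem exists_two_nsmul (x : Circ) : ∃ w : Circ, 2 • w = x := by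
  induction x using QuotientAddGroup.induction_on with
  | H r =>
    refine ⟨((r / 2 : ℝ) : Circ), ?_⟩
    rw [← AddCircle.coe_nsmul]
    congr 1
    rw [nsmul_eq_mul]
    push_cast
    ring

theorem two_nsmul_eq_iff {x y : Circ} : 2 • x = 2 • y ↔ x = y ∨ x = y + half := by
  constructor
  · intro h
    have h1 : 2 • (x - y) = 0 := by rw [smul_sub, h, sub_self]
    rcases two_nsmul_eq_zero h1 with h2 | h2
    · exact Or.inl (sub_eq_zero.mp h2)
    · exact Or.inr (by rw [← h2]; abel)
  · rintro (rfl | rfl)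
    · rfl
    · rw [smul_add, two_half, add_zero]

theorem ergodic_double : Ergodic (fun x : Circ => 2 • x) := AddCircle.ergodic_nsmul one_lt_two

/-- The image of a null set under the doubling map is null. -/
theorem null_image_double {N : Set Circ} (hN : volume N = 0) :
    volume {y : Circ | ∃ x ∈ N, 2 • x = y} = 0 := by
  set N' := toMeasurable volume N with hN'
  have h1 : MeasurableSet N' := measurableSet_toMeasurable _ _
  have h2 : volume N' = 0 := by rw [hN', measure_toMeasurable, hN]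
  set N'' : Set Circ := N' ∪ (fun x => x + half) ⁻¹' N' with hN''
  have hmp : MeasurePreserving (fun x : Circ => x + half) volume volume :=
    measurePreserving_add_right volume half
  have h3 : MeasurableSet N'' := h1.union (hmp.measurable h1)
  have h4 : volume N'' = 0 := by
    rw [hN'', measure_union_null_iff]
    exact ⟨h2, hmp.quasiMeasurePreserving.preimage_null h2⟩
  set f : Circ → Circ := fun x => 2 • x with hf
  have hfs : Function.Surjective f := exists_two_nsmul
  have hfm : MeasurePreserving f volume volume := ergodic_double.toMeasurePreserving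
  have h5 : f ⁻¹' (f '' N'') = N'' := by
    refine subset_antisymm ?_ (Set.subset_preimage_image _ _)
    rintro x ⟨y, hy, hxy⟩
    rcases two_nsmul_eq_iff.mp hxy.symm with rfl | rfl
    · exact hy
    · rcases hy with hy | hy
      · right
        change y + half + half ∈ N'
        rw [add_assoc, ← two_nsmul, two_half, add_zero]
        exact hy
      · exact Or.inl hy
  have h6 : MeasurableSet (f '' N'') := by
    rw [← hfm.measurable.measurableSet_preimage_iff_of_surjective hfs, h5]
    exact h3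
  have h7 : volume (f '' N'') = 0 := by
    rw [← hfm.measure_preimage h6.nullMeasurableSet, h5, h4]
  refine measure_mono_null ?_ h7
  rintro y ⟨x, hx, rfl⟩
  exact ⟨x, Or.inl (subset_toMeasurable _ _ hx), rfl⟩

/-- The adjacency relation. The vertices `(x, 0)`, `(x, 1)`, `(x, 2)` are called
`u x`, `m x`, `d x`. -/
def adj0 (p q : Circ × Fin 3) : Prop :=
  (p.2 = 0 ∧ q.2 = 0 ∧ (q.1 = p.1 + th ∨ p.1 = q.1 + th)) ∨
  (p.2 = 0 ∧ q.2 = 1 ∧ p.1 = q.1) ∨ (p.2 = 1 ∧ q.2 = 0 ∧ p.1 = q.1) ∨
  (p.2 = 1 ∧ q.2 = 2 ∧ p.1 = q.1) ∨ (p.2 = 2 ∧ q.2 = 1 ∧ p.1 = q.1) ∨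
  (p.2 = 0 ∧ q.2 = 2 ∧ 2 • p.1 = q.1) ∨ (p.2 = 2 ∧ q.2 = 0 ∧ 2 • q.1 = p.1)

/-- The graph. -/
def G0 : SimpleGraph (Circ × Fin 3) where
  Adj := adj0
  symm := ⟨by
    rintro p q (⟨a, b, c⟩ | ⟨a, b, c⟩ | ⟨a, b, c⟩ | ⟨a, b, c⟩ | ⟨a, b, c⟩ | ⟨a, b, c⟩ | ⟨a, b, c⟩)
    · exact Or.inl ⟨b, a, c.symm⟩
    · exact Or.inr (Or.inr (Or.inl ⟨b, a, c.symm⟩))
    · exact Or.inr (Or.inl ⟨b, a, c.symm⟩)
    · exact Or.inr (Or.inr (Or.inr (Or.inr (Or.inl ⟨b, a, c.symm⟩))))
    · exact Or.inr (Or.inr (Or.inr (Or.inl ⟨b, a, c.symm⟩)))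
    · exact Or.inr (Or.inr (Or.inr (Or.inr (Or.inr (Or.inr ⟨b, a, c⟩)))))
    · exact Or.inr (Or.inr (Or.inr (Or.inr (Or.inr (Or.inl ⟨b, a, c⟩)))))⟩
  loopless := ⟨by
    rintro p (⟨a, b, c⟩ | ⟨a, b, c⟩ | ⟨a, b, c⟩ | ⟨a, b, c⟩ | ⟨a, b, c⟩ | ⟨a, b, c⟩ | ⟨a, b, c⟩)
    · rcases c with c | c <;> exact th_ne (left_eq_add.mp c)
    all_goals
      rw [a] at b
      exact absurd b (by decide)⟩

theorem adj_u {x : Circ} {q : Circ × Fin 3} :
    G0.Adj (x, 0) q ↔ q = (x + th, 0) ∨ q = (x - th, 0) ∨ q = (x, 1) ∨ q = (2 • x, 2) := by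
  obtain ⟨y, i⟩ := q
  change adj0 (x, 0) (y, i) ↔ _
  unfold adj0
  fin_cases i
  · simp [Prod.ext_iff, eq_sub_iff_add_eq, eq_comm]
  · simp [Prod.ext_iff, eq_comm]
  · simp [Prod.ext_iff, eq_comm]

theorem adj_m {x : Circ} {q : Circ × Fin 3} : G0.Adj (x, 1) q ↔ q = (x, 0) ∨ q = (x, 2) := by
  obtain ⟨y, i⟩ := q
  change adj0 (x, 1) (y, i) ↔ _
  unfold adj0
  fin_cases i <;> simp [Prod.ext_iff, eq_comm]

theorem adj_d {x : Circ} {q : Circ × Fin 3} :
    G0.Adj (x, 2) q ↔ q = (x, 1) ∨ (q.2 = 0 ∧ 2 • q.1 = x) := by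
  obtain ⟨y, i⟩ := q
  change adj0 (x, 2) (y, i) ↔ _
  unfold adj0
  fin_cases i <;> simp [Prod.ext_iff, eq_comm]

theorem add_th_ne_sub (x : Circ) : x + th ≠ x - th := by
  intro h
  have h1 : 2 • th = 0 := by
    rw [two_nsmul]
    have h2 : th + th = (x + th) - (x - th) := by abel
    rw [h2, h, sub_self]
  exact nsmul_th_ne two_pos h1

theorem deg_u (x : Circ) : HasDeg G0 (x, 0) 4 := by
  have h1 : G0.neighborSet (x, 0) = {(x + th, 0), (x - th, 0), (x, 1), (2 • x, 2)} := by
    ext q
    exact adj_u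
  unfold HasDeg
  rw [h1, Set.encard_insert_of_notMem, Set.encard_insert_of_notMem, Set.encard_insert_of_notMem,
    Set.encard_singleton]
  · norm_num
  · simp [Prod.ext_iff]
  · simp [Prod.ext_iff]
  · simp [Prod.ext_iff, add_th_ne_sub]

theorem deg_m (x : Circ) : HasDeg G0 (x, 1) 2 := by
  have h1 : G0.neighborSet (x, 1) = {(x, 0), (x, 2)} := by
    ext q
    exact adj_m
  unfold HasDeg
  rw [h1, Set.encard_pair (by simp [Prod.ext_iff])]
  norm_num

theorem deg_d (x : Circ) : HasDeg G0 (x, 2) 3 := by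
  obtain ⟨w, rfl⟩ := exists_two_nsmul x
  have h1 : G0.neighborSet (2 • w, 2) = {(2 • w, 1), (w, 0), (w + half, 0)} := by
    ext ⟨y, i⟩
    change G0.Adj (2 • w, 2) (y, i) ↔ _
    rw [adj_d]
    simp only [Set.mem_insert_iff, Set.mem_singleton_iff, Prod.ext_iff, two_nsmul_eq_iff]
    tauto
  unfold HasDeg
  rw [h1, Set.encard_insert_of_notMem, Set.encard_pair]
  · norm_num
  · simp [Prod.ext_iff, half_ne]
  · simp [Prod.ext_iff]

theorem HasDeg.unique {V : Type} {G : SimpleGraph V} {v : V} {k l : ℕ} (h : HasDeg G v k)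
    (h' : HasDeg G v l) : k = l := by
  unfold HasDeg at h h'
  rw [h] at h'
  exact_mod_cast h'

theorem child_u_iff {x : Circ} {q : Circ × Fin 3} :
    Child G0 (x, 0) q ↔ q.2 = 0 ∧ 2 • q.1 = x := by
  constructor
  · rintro ⟨m, d, a1, a2, a3, n1, n2, d1, d2⟩
    have hm : m = (x, 1) := by
      rw [adj_u] at a1
      rcases a1 with rfl | rfl | rfl | rfl
      · exact absurd (d1.unique (deg_u _)) (by norm_num)
      · exact absurd (d1.unique (deg_u _)) (by norm_num)
      · rfl
      · exact absurd (d1.unique (deg_d _)) (by norm_num)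
    subst hm
    have hd : d = (x, 2) := by
      rw [adj_m] at a2
      rcases a2 with rfl | rfl
      · exact absurd rfl n1
      · rfl
    subst hd
    rw [adj_d] at a3
    rcases a3 with rfl | h
    · exact absurd rfl n2
    · exact h
  · intro h
    refine ⟨(x, 1), (x, 2), adj_u.mpr (by simp), adj_m.mpr (by simp), adj_d.mpr (Or.inr h), ?_, ?_,
      deg_m x, deg_d x⟩
    · simp [Prod.ext_iff]
    · intro h2
      rw [← h2] at h
      exact absurd h.1 (by simp)

theorem parent_u {x : Circ} {q : Circ × Fin 3} (h : Child G0 q (x, 0)) : q = (2 • x, 0) := by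
  obtain ⟨m, d, a1, a2, a3, n1, n2, d1, d2⟩ := h
  have hd : d = (2 • x, 2) := by
    have := a3.symm
    rw [adj_u] at this
    rcases this with rfl | rfl | rfl | rfl
    · exact absurd (d2.unique (deg_u _)) (by norm_num)
    · exact absurd (d2.unique (deg_u _)) (by norm_num)
    · exact absurd (d2.unique (deg_m _)) (by norm_num)
    · rfl
  subst hd
  have hm : m = (2 • x, 1) := by
    have := a2.symm
    rw [adj_d] at this
    rcases this with rfl | ⟨h1, h2⟩
    · rfl
    · have : m = (m.1, 0) := Prod.ext rfl h1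
      rw [this] at d1
      exact absurd (d1.unique (deg_u _)) (by norm_num)
  subst hm
  have := a1.symm
  rw [adj_m] at this
  rcases this with rfl | rfl
  · rfl
  · exact absurd rfl n1

theorem regular_u (x : Circ) : Regular G0 (x, 0) := by
  refine ⟨deg_u x, ?_, ?_⟩
  · obtain ⟨w, rfl⟩ := exists_two_nsmul x
    refine ⟨(w, 0), (w + half, 0), ?_, child_u_iff.mpr ⟨rfl, rfl⟩, child_u_iff.mpr ⟨rfl, ?_⟩⟩
    · simp [Prod.ext_iff, half_ne]
    · rw [two_nsmul_eq_iff]
      exact Or.inr rfl
  · intro y y' hy hy'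
    rw [parent_u hy, parent_u hy']

/-- The measure: the average of the three copies of Lebesgue measure. -/
noncomputable def mu0 : Measure (Circ × Fin 3) :=
  (3 : ℝ≥0∞)⁻¹ • Measure.sum (fun i : Fin 3 => (volume : Measure Circ).map (fun x => (x, i)))

theorem mu0_eq_zero {N : Set (Circ × Fin 3)} :
    mu0 N = 0 ↔ ∀ i : Fin 3, volume {x : Circ | (x, i) ∈ N} = 0 := by
  unfold mu0
  rw [Measure.smul_apply, smul_eq_mul, mul_eq_zero, or_iff_right (by simp),
    Measure.sum_apply_eq_zero]
  refine forall_congr' fun i => ?_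
  rw [(measurableEmbedding_prod_mk_right i).map_apply]
  exact Iff.rfl

instance : IsProbabilityMeasure mu0 := by
  constructor
  unfold mu0
  rw [Measure.smul_apply, smul_eq_mul, Measure.sum_apply _ MeasurableSet.univ]
  have h1 : ∀ i : Fin 3, ((volume : Measure Circ).map (fun x => (x, i))) Set.univ = 1 := by
    intro i
    rw [(measurableEmbedding_prod_mk_right i).map_apply, Set.preimage_univ,
      UnitAddCircle.measure_univ]
  simp only [h1]
  rw [tsum_fintype]
  simp only [Finset.sum_const, Finset.card_univ, Fintype.card_fin, nsmul_eq_mul, mul_one]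
  exact ENNReal.inv_mul_cancel (by norm_num) (by norm_num)

theorem null_nbr {N : Set (Circ × Fin 3)} (hN : mu0 N = 0) :
    mu0 {q | ∃ p ∈ N, G0.Adj p q} = 0 := by
  rw [mu0_eq_zero] at hN
  have h0 := hN 0
  have h1 := hN 1
  have h2 := hN 2
  have hp : volume {y : Circ | y + th ∈ {x : Circ | (x, (0 : Fin 3)) ∈ N}} = 0 :=
    (measurePreserving_add_right volume th).quasiMeasurePreserving.preimage_null h0
  have hm : volume {y : Circ | y + -th ∈ {x : Circ | (x, (0 : Fin 3)) ∈ N}} = 0 :=
    (measurePreserving_add_right volume (-th)).quasiMeasurePreserving.preimage_null h0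
  have hd : volume {y : Circ | 2 • y ∈ {x : Circ | (x, (2 : Fin 3)) ∈ N}} = 0 :=
    ergodic_double.toMeasurePreserving.quasiMeasurePreserving.preimage_null h2
  have hi := null_image_double h0
  rw [mu0_eq_zero]
  intro i
  fin_cases i
  · refine measure_mono_null ?_ (measure_union_null hp (measure_union_null hm
      (measure_union_null h1 hd)))
    rintro y ⟨⟨x, j⟩, hx, hadj⟩
    have := adj_u.mp (show G0.Adj (y, 0) (x, j) from hadj.symm)
    rcases this with h | h | h | h
    · rw [h] at hx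
      exact Or.inl hx
    · rw [h, sub_eq_add_neg] at hx
      exact Or.inr (Or.inl hx)
    · rw [h] at hx
      exact Or.inr (Or.inr (Or.inl hx))
    · rw [h] at hx
      exact Or.inr (Or.inr (Or.inr hx))
  · refine measure_mono_null ?_ (measure_union_null h0 h2)
    rintro y ⟨⟨x, j⟩, hx, hadj⟩
    have := adj_m.mp (show G0.Adj (y, 1) (x, j) from hadj.symm)
    rcases this with h | h
    · rw [h] at hx
      exact Or.inl hx
    · rw [h] at hx
      exact Or.inr hx
  · refine measure_mono_null ?_ (measure_union_null h1 hi)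
    rintro y ⟨⟨x, j⟩, hx, hadj⟩
    have := adj_d.mp (show G0.Adj (y, 2) (x, j) from hadj.symm)
    rcases this with h | ⟨h, h'⟩
    · rw [h] at hx
      exact Or.inl hx
    · have hj : j = 0 := h
      subst hj
      exact Or.inr ⟨x, hx, h'⟩

theorem null_saturation {N : Set (Circ × Fin 3)} (hN : mu0 N = 0) :
    mu0 {q | ∃ p ∈ N, G0.Reachable p q} = 0 := by
  let S : ℕ → Set (Circ × Fin 3) := fun n => Nat.rec N (fun _ A => {q | ∃ p ∈ A, G0.Adj p q}) n
  have hS : ∀ n, mu0 (S n) = 0 := by
    intro n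
    induction n with
    | zero => exact hN
    | succ n ih => exact null_nbr ih
  have h1 : ∀ (n : ℕ) (p q : Circ × Fin 3) (w : G0.Walk p q), w.length = n → p ∈ N → q ∈ S n := by
    intro n
    induction n with
    | zero =>
      intro p q w hw hp
      rw [← SimpleGraph.Walk.eq_of_length_eq_zero hw]
      exact hp
    | succ n ih =>
      intro p q w hw hp
      have h2 := w.length_reverse
      rw [hw] at h2
      cases h3 : w.reverse with
      | nil =>
        rw [h3] at h2
        simp at h2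
      | cons h w' =>
        rename_i r
        rw [h3] at h2
        refine ⟨r, ih p r w'.reverse ?_ hp, h.symm⟩
        rw [SimpleGraph.Walk.length_reverse]
        simpa using h2
  refine measure_mono_null ?_ (measure_iUnion_null hS)
  rintro q ⟨p, hp, ⟨w⟩⟩
  rw [Set.mem_iUnion]
  exact ⟨w.length, h1 _ p q w rfl hp⟩

theorem borel0 : MeasurableSet {p : (Circ × Fin 3) × (Circ × Fin 3) | G0.Adj p.1 p.2} := by
  change MeasurableSet {p : (Circ × Fin 3) × (Circ × Fin 3) | adj0 p.1 p.2}
  unfold adj0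
  have hi : ∀ i : Fin 3, MeasurableSet {p : (Circ × Fin 3) × (Circ × Fin 3) | p.1.2 = i} :=
    fun i => measurableSet_eq_fun (by fun_prop) measurable_const
  have hj : ∀ i : Fin 3, MeasurableSet {p : (Circ × Fin 3) × (Circ × Fin 3) | p.2.2 = i} :=
    fun i => measurableSet_eq_fun (by fun_prop) measurable_const
  have e0 : MeasurableSet {p : (Circ × Fin 3) × (Circ × Fin 3) | p.1.1 = p.2.1} :=
    measurableSet_eq_fun (by fun_prop) (by fun_prop)
  have e1 : MeasurableSet {p : (Circ × Fin 3) × (Circ × Fin 3) | p.2.1 = p.1.1 + th} :=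
    measurableSet_eq_fun (by fun_prop) (by fun_prop)
  have e2 : MeasurableSet {p : (Circ × Fin 3) × (Circ × Fin 3) | p.1.1 = p.2.1 + th} :=
    measurableSet_eq_fun (by fun_prop) (by fun_prop)
  have e3 : MeasurableSet {p : (Circ × Fin 3) × (Circ × Fin 3) | 2 • p.1.1 = p.2.1} :=
    measurableSet_eq_fun (by fun_prop) (by fun_prop)
  have e4 : MeasurableSet {p : (Circ × Fin 3) × (Circ × Fin 3) | 2 • p.2.1 = p.1.1} :=
    measurableSet_eq_fun (by fun_prop) (by fun_prop)
  exact ((hi 0).inter ((hj 0).inter (e1.union e2))).union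
    (((hi 0).inter ((hj 1).inter e0)).union
      (((hi 1).inter ((hj 0).inter e0)).union
        (((hi 1).inter ((hj 2).inter e0)).union
          (((hi 2).inter ((hj 1).inter e0)).union
            (((hi 0).inter ((hj 2).inter e3)).union
              ((hi 2).inter ((hj 0).inter e4)))))))

/-- The measured graph. -/
noncomputable def M0 (Δ : ℕ) (hΔ : 4 ≤ Δ) : MeasuredGraph Δ where
  X := Circ × Fin 3
  μ := mu0
  G := G0
  borel := borel0
  degree_le := by
    have h4 : (4 : ℕ∞) ≤ Δ := by exact_mod_cast hΔ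
    rintro ⟨x, i⟩
    fin_cases i
    · refine le_trans (le_of_eq (deg_u x)) h4
    · refine le_trans (le_of_eq (deg_m x)) (le_trans ?_ h4)
      norm_num
    · refine le_trans (le_of_eq (deg_d x)) (le_trans ?_ h4)
      norm_num
  quasi_invariant := fun _ h => null_saturation h

end Pool.Agent.LCL
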