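import Mathlib
import Pool.Agent.LCL.Borel

set_option autoImplicit false
set_option linter.unusedSectionVars false

/-!
The problem is solvable on measured graphs satisfying the mass transport principle.
-/

namespace Pool.Agent.LCL

open MeasureTheory
open scoped ENNReal

section comb
variable {X : Type}

/-- Iterated neighbourhoods of `S` for the relation `R`. -/
def grow (R : X → X → Prop) (S : Set X) : ℕ → Set X
  | 0 => S
  | n + 1 => grow R S n ∪ {x | ∃ y, R x y ∧ y ∈ grow R S n}

/-- The closure of `S` under `R`-predecessors. -/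
def cl (R : X → X → Prop) (S : Set X) : Set X := {x | ∃ n, x ∈ grow R S n}

theorem subset_cl (R : X → X → Prop) (S : Set X) : S ⊆ cl R S := fun _ hx => ⟨0, hx⟩

theorem mem_cl_of_rel {R : X → X → Prop} {S : Set X} {x y : X} (h : R x y) (hy : y ∈ cl R S) :
    x ∈ cl R S := by
  obtain ⟨n, hn⟩ := hy
  exact ⟨n + 1, Or.inr ⟨y, h, hn⟩⟩

theorem grow_mono {R : X → X → Prop} {S S' : Set X} (h : S ⊆ S') (n : ℕ) :
    grow R S n ⊆ grow R S' n := by
  induction n with
  | zero => exact h
  | succ n ih =>
    rintro x (hx | ⟨y, hxy, hy⟩)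
    · exact Or.inl (ih hx)
    · exact Or.inr ⟨y, hxy, ih hy⟩

theorem cl_mono {R : X → X → Prop} {S S' : Set X} (h : S ⊆ S') : cl R S ⊆ cl R S' :=
  fun _ ⟨n, hn⟩ => ⟨n, grow_mono h n hn⟩

/-- The least index `n` with `x ∈ D n`. -/
noncomputable def lev (D : ℕ → Set X) (x : X) : ℕ := sInf {n | x ∈ D n}

theorem lev_eq {D : ℕ → Set X} {x : X} {n : ℕ} (h : x ∈ D n) (h' : ∀ m < n, x ∉ D m) :
    lev D x = n := by
  refine le_antisymm (Nat.sInf_le h) ?_
  by_contra hcon
  exact h' _ (not_le.mp hcon) (Nat.sInf_mem (s := {n | x ∈ D n}) ⟨n, h⟩)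

theorem mem_lev {D : ℕ → Set X} {x : X} (h : ∃ n, x ∈ D n) : x ∈ D (lev D x) :=
  Nat.sInf_mem (s := {n | x ∈ D n}) h

theorem notMem_of_lt_lev {D : ℕ → Set X} {x : X} {m : ℕ} (h : m < lev D x) : x ∉ D m :=
  fun hx => absurd (Nat.sInf_le (s := {n | x ∈ D n}) hx) (not_le.mpr h)

variable (T C : X → X → Prop) (A : Set X)

/-- Points from which a `T`-component meeting `Aᶜ` is reached after `n` child steps. -/
def K : ℕ → Set X
  | 0 => cl T Aᶜ
  | n + 1 => K n ∪ cl T {x | ∃ z, C x z ∧ z ∈ K n}

variable {T C A}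

theorem K_mono {m n : ℕ} (h : m ≤ n) : K T C A m ⊆ K T C A n := by
  induction h with
  | refl => exact le_rfl
  | step _ ih => exact ih.trans Set.subset_union_left

theorem K_rel {x y : X} (h : T x y) {n : ℕ} (hy : y ∈ K T C A n) : x ∈ K T C A n := by
  induction n with
  | zero => exact mem_cl_of_rel h hy
  | succ n ih =>
    rcases hy with hy | hy
    · exact Or.inl (ih hy)
    · exact Or.inr (mem_cl_of_rel h hy)

theorem lev_rel (hT : ∀ x y, T x y → T y x) {x y : X} (h : T x y) :
    lev (K T C A) x = lev (K T C A) y := by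
  unfold lev
  congr 1
  ext n
  exact ⟨fun hx => K_rel (hT _ _ h) hx, fun hy => K_rel h hy⟩

/-- The marked points. -/
def marks (T C : X → X → Prop) (A : Set X) : Set X :=
  Aᶜ ∪ {x | ∃ z, C x z ∧ (decide (Odd (lev (K T C A) z)) : Bool) ≠
    decide (Odd (lev (K T C A) x))}

theorem mem_cl_marks (hT : ∀ x y, T x y → T y x) {x : X} (hx : ∃ n, x ∈ K T C A n) :
    x ∈ cl T (marks T C A) := by
  have h1 := mem_lev hx
  rcases h : lev (K T C A) x with _ | m
  · rw [h] at h1
    exact cl_mono Set.subset_union_left h1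
  · rw [h] at h1
    have h2 : x ∉ K T C A m := notMem_of_lt_lev (by omega)
    rcases h1 with h1 | h1
    · exact absurd h1 h2
    obtain ⟨k, hk⟩ := h1
    have key : ∀ (k : ℕ) (x : X), x ∈ grow T {x | ∃ z, C x z ∧ z ∈ K T C A m} k →
        x ∉ K T C A m → x ∈ cl T (marks T C A) := by
      intro k
      induction k with
      | zero =>
        rintro x ⟨z, hxz, hz⟩ hx'
        apply subset_cl
        refine Or.inr ⟨z, hxz, ?_⟩
        have e1 : lev (K T C A) z = m := by
          refine lev_eq hz fun j hj hzj => hx' ?_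
          exact K_mono (Nat.succ_le_of_lt hj) (Or.inr (subset_cl _ _ ⟨z, hxz, hzj⟩))
        have e2 : lev (K T C A) x = m + 1 := by
          refine lev_eq (Or.inr (subset_cl _ _ ⟨z, hxz, hz⟩)) fun j hj hxj => hx' ?_
          exact K_mono (Nat.lt_succ_iff.mp hj) hxj
        rw [e1, e2]
        intro h3
        have h4 := decide_eq_decide.mp h3
        rw [Nat.odd_add_one] at h4
        tauto
      | succ k ih =>
        rintro x (hx | ⟨y, hxy, hy⟩) hx'
        · exact ih x hx hx'
        · exact mem_cl_of_rel hxy (ih y hy fun hy' => hx' (K_rel hxy hy'))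
    exact key k x hk h2

/-- The labelling. -/
noncomputable def lab (T C : X → X → Prop) (A : Set X) (x : X) : Lab :=
  (decide (Odd (lev (K T C A) x)), (lev (grow T (marks T C A)) x : ZMod 3))

theorem grow_lev_pred {S : Set X} {x : X} (hx : ∃ n, x ∈ grow T S n) (hS : x ∉ S) :
    ∃ y, T x y ∧ lev (grow T S) x = lev (grow T S) y + 1 := by
  have h1 := mem_lev hx
  rcases h : lev (grow T S) x with _ | m
  · rw [h] at h1
    exact absurd h1 hS
  · rw [h] at h1
    have h2 : x ∉ grow T S m := notMem_of_lt_lev (by omega)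
    rcases h1 with h1 | ⟨y, hxy, hy⟩
    · exact absurd h1 h2
    · refine ⟨y, hxy, ?_⟩
      congr 1
      symm
      refine lev_eq hy fun j hj hyj => h2 ?_
      have h3 : ∀ n, j + 1 ≤ n → x ∈ grow T S n := by
        intro n hn
        induction hn with
        | refl => exact Or.inr ⟨y, hxy, hyj⟩
        | step _ ih => exact Or.inl ih
      exact h3 m hj

end comb

theorem rule_of_mem {X : Type} {G : SimpleGraph X} {x : X}
    (hx : ∃ n, x ∈ K (fun x y => G.Adj x y ∧ HasDeg G x 4 ∧ HasDeg G y 4) (Child G)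
      {x | Regular G x} n) :
    Rule G (lab (fun x y => G.Adj x y ∧ HasDeg G x 4 ∧ HasDeg G y 4) (Child G)
      {x | Regular G x}) x := by
  set T : X → X → Prop := fun x y => G.Adj x y ∧ HasDeg G x 4 ∧ HasDeg G y 4 with hTdef
  have hT : ∀ x y, T x y → T y x := fun x y h => ⟨h.1.symm, h.2.2, h.2.1⟩
  intro hreg
  refine ⟨?_, ?_⟩
  · intro y hxy hy
    change (decide (Odd (lev _ y)) : Bool) = decide (Odd (lev _ x))
    rw [lev_rel (C := Child G) (A := {x | Regular G x}) hT
      (show T x y from ⟨hxy, hreg.1, hy⟩)]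
  · by_cases hm : x ∈ marks T (Child G) {x | Regular G x}
    · rcases hm with hm | ⟨z, hz, hne⟩
      · exact absurd hreg hm
      · exact Or.inl ⟨z, hz, hne⟩
    · obtain ⟨y, hy, he⟩ := grow_lev_pred (T := T) (mem_cl_marks hT hx) hm
      refine Or.inr ⟨y, hy.1, hy.2.2, ?_⟩
      change (lev _ y : ZMod 3) + 1 = (lev _ x : ZMod 3)
      rw [he]
      push_cast
      rfl

section meas
variable {X : Type} [MeasurableSpace X] [StandardBorelSpace X]

theorem measurableSet_grow {R : X → X → Prop} (hR : BRel R) {S : Set X} (hS : MeasurableSet S)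
    (n : ℕ) : MeasurableSet (grow R S n) := by
  induction n with
  | zero => exact hS
  | succ n ih => exact ih.union (hR.exists_mem ih)

theorem measurableSet_cl {R : X → X → Prop} (hR : BRel R) {S : Set X} (hS : MeasurableSet S) :
    MeasurableSet (cl R S) := by
  have : cl R S = ⋃ n, grow R S n := by
    ext x
    rw [Set.mem_iUnion]
    exact Iff.rfl
  rw [this]
  exact MeasurableSet.iUnion fun n => measurableSet_grow hR hS n

theorem measurableSet_K {T C : X → X → Prop} {A : Set X} (hT : BRel T) (hC : BRel C)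
    (hA : MeasurableSet A) (n : ℕ) : MeasurableSet (K T C A n) := by
  induction n with
  | zero => exact measurableSet_cl hT hA.compl
  | succ n ih => exact ih.union (measurableSet_cl hT (hC.exists_mem ih))

theorem measurable_lev {D : ℕ → Set X} (hD : ∀ n, MeasurableSet (D n)) : Measurable (lev D) := by
  refine measurable_to_countable' fun n => ?_
  have h1 : MeasurableSet {x | ∀ m < n, x ∉ D m} := by
    have : {x | ∀ m < n, x ∉ D m} = ⋂ m, ⋂ (_ : m < n), (D m)ᶜ := by
      ext x
      simp
    rw [this]
    exact MeasurableSet.iInter fun m => MeasurableSet.iInter fun _ => (hD m).compl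
  have h2 : MeasurableSet {x | ∀ m, x ∉ D m} := by
    have : {x | ∀ m, x ∉ D m} = ⋂ m, (D m)ᶜ := by
      ext x
      simp
    rw [this]
    exact MeasurableSet.iInter fun m => (hD m).compl
  have h3 : lev D ⁻¹' {n} = (D n ∩ {x | ∀ m < n, x ∉ D m}) ∪ (if n = 0 then {x | ∀ m, x ∉ D m}
      else ∅) := by
    ext x
    constructor
    · intro hx
      have hx' : lev D x = n := hx
      by_cases he : ∃ m, x ∈ D m
      · left
        have := mem_lev he
        rw [hx'] at this
        exact ⟨this, fun m hm => notMem_of_lt_lev (hx'.symm ▸ hm)⟩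
      · right
        push Not at he
        have h4 : lev D x = 0 := by
          unfold lev
          have : {n | x ∈ D n} = ∅ := by
            ext m
            exact ⟨fun h => he m h, fun h => h.elim⟩
          rw [this]
          exact Nat.sInf_empty
        rw [if_pos (hx'.symm.trans h4)]
        exact he
    · rintro (⟨hx, hx'⟩ | hx)
      · exact lev_eq hx hx'
      · by_cases hn : n = 0
        · rw [if_pos hn] at hx
          have : {n | x ∈ D n} = ∅ := by
            ext m
            exact ⟨fun h => hx m h, fun h => h.elim⟩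
          change sInf {n | x ∈ D n} = n
          rw [this, hn]
          exact Nat.sInf_empty
        · rw [if_neg hn] at hx
          exact hx.elim
  rw [h3]
  refine ((hD n).inter h1).union ?_
  by_cases hn : n = 0
  · rw [if_pos hn]
    exact h2
  · rw [if_neg hn]
    exact MeasurableSet.empty

theorem measurableSet_lab {T C : X → X → Prop} {A : Set X} (hT : BRel T) (hC : BRel C)
    (hA : MeasurableSet A) (l : Lab) : MeasurableSet (lab T C A ⁻¹' {l}) := by
  have h1 : Measurable (lev (K T C A)) := measurable_lev (measurableSet_K hT hC hA)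
  have hm : MeasurableSet (marks T C A) := by
    have h2 : ∀ b : Bool, MeasurableSet {x | (decide (Odd (lev (K T C A) x)) : Bool) = b} := by
      intro b
      exact h1 (MeasurableSet.of_discrete (s := {n : ℕ | (decide (Odd n) : Bool) = b}))
    have h3 : marks T C A = Aᶜ ∪ ⋃ b : Bool,
        ({x | (decide (Odd (lev (K T C A) x)) : Bool) = !b} ∩
          {x | ∃ z, C x z ∧ z ∈ {x | (decide (Odd (lev (K T C A) x)) : Bool) = b}}) := by
      ext x
      constructor
      · rintro (hx | ⟨z, hz, hne⟩)
        · exact Or.inl hx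
        · right
          rw [Set.mem_iUnion]
          refine ⟨decide (Odd (lev (K T C A) z)), ?_, z, hz, rfl⟩
          change (decide (Odd (lev (K T C A) x)) : Bool) = !decide (Odd (lev (K T C A) z))
          revert hne
          cases (decide (Odd (lev (K T C A) x)) : Bool) <;>
            cases (decide (Odd (lev (K T C A) z)) : Bool) <;> simp
      · rintro (hx | hx)
        · exact Or.inl hx
        · right
          rw [Set.mem_iUnion] at hx
          obtain ⟨b, hb, z, hz, hzb⟩ := hx
          refine ⟨z, hz, ?_⟩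
          have hb' : (decide (Odd (lev (K T C A) x)) : Bool) = !b := hb
          have hzb' : (decide (Odd (lev (K T C A) z)) : Bool) = b := hzb
          rw [hb', hzb']
          cases b <;> simp
    rw [h3]
    exact hA.compl.union (MeasurableSet.iUnion fun b => (h2 _).inter (hC.exists_mem (h2 b)))
  have h4 : Measurable (lev (grow T (marks T C A))) := measurable_lev (measurableSet_grow hT hm)
  have h5 : lab T C A ⁻¹' {l} = (fun x => (lev (K T C A) x, lev (grow T (marks T C A)) x)) ⁻¹'
      {p : ℕ × ℕ | ((decide (Odd p.1) : Bool), (p.2 : ZMod 3)) = l} := rfl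
  rw [h5]
  exact (h1.prodMk h4) MeasurableSet.of_discrete

end meas

/-- The problem is solvable on every measured graph satisfying the mass transport principle. -/
theorem solvable_of_massTransport {Δ : ℕ} (M : MeasuredGraph Δ) (hM : M.MassTransport) :
    (theProblem Δ).SolvableOn M := by
  classical
  have hB := M.borel
  have hG := M.degree_le
  set T : M.X → M.X → Prop := fun x y => M.G.Adj x y ∧ HasDeg M.G x 4 ∧ HasDeg M.G y 4 with hTdef
  set A : Set M.X := {x | Regular M.G x} with hA
  have hTm : BRel T := brel_four hB hG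
  have hCm : BRel (Child M.G) := brel_child hB hG
  have hAm : MeasurableSet A := measurableSet_regular hB hG
  set Z : Set M.X := {x | ∀ n, x ∉ K T (Child M.G) A n} with hZ
  have hZm : MeasurableSet Z := by
    have : Z = ⋂ n, (K T (Child M.G) A n)ᶜ := by
      ext x
      rw [Set.mem_iInter]
      exact Iff.rfl
    rw [this]
    exact MeasurableSet.iInter fun n => (measurableSet_K hTm hCm hAm n).compl
  have hZreg : ∀ x ∈ Z, Regular M.G x := by
    intro x hx
    by_contra hcon
    exact hx 0 (subset_cl _ _ hcon)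
  have hZchild : ∀ x ∈ Z, ∀ z, Child M.G x z → z ∈ Z := by
    intro x hx z hz n hn
    exact hx (n + 1) (Or.inr (subset_cl _ _ ⟨z, hz, hn⟩))
  have hreach : ∀ x z, Child M.G x z → M.G.Reachable x z := by
    rintro x z ⟨m, d, a1, a2, a3, _⟩
    exact a1.reachable.trans (a2.reachable.trans a3.reachable)
  let F : M.X → M.X → ℝ≥0∞ := fun x z =>
    Set.indicator {p : M.X × M.X | p.1 ∈ Z ∧ Child M.G p.1 p.2} (fun _ => 1) (x, z)
  have hF : Measurable (Function.uncurry F) := by
    have h1 : MeasurableSet {p : M.X × M.X | p.1 ∈ Z ∧ Child M.G p.1 p.2} :=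
      (measurable_fst hZm).inter hCm.1
    exact measurable_const.indicator h1
  have hF1 : ∀ x z, x ∈ Z → Child M.G x z → F x z = 1 := by
    intro x z hx hz
    exact Set.indicator_of_mem (s := {p : M.X × M.X | p.1 ∈ Z ∧ Child M.G p.1 p.2})
      (show (x, z) ∈ _ from ⟨hx, hz⟩) _
  have hF0 : ∀ x z, ¬ (x ∈ Z ∧ Child M.G x z) → F x z = 0 := by
    intro x z h
    exact Set.indicator_of_notMem (s := {p : M.X × M.X | p.1 ∈ Z ∧ Child M.G p.1 p.2}) h _
  have hmt := hM F hF
  have hleft : 2 * M.μ Z ≤ ∫⁻ x, ∑' y : {y // M.G.Reachable x y}, F x y ∂M.μ := by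
    have h1 : 2 * M.μ Z = ∫⁻ x, Z.indicator (fun _ => 2) x ∂M.μ := by
      rw [lintegral_indicator_const hZm]
    rw [h1]
    refine lintegral_mono fun x => ?_
    by_cases hx : x ∈ Z
    · rw [Set.indicator_of_mem hx]
      obtain ⟨z, z', hne, hz, hz'⟩ := (hZreg x hx).2.1
      let a : {y // M.G.Reachable x y} := ⟨z, hreach _ _ hz⟩
      let b : {y // M.G.Reachable x y} := ⟨z', hreach _ _ hz'⟩
      have hab : a ≠ b := fun h => hne (congrArg Subtype.val h)
      have h2 := ENNReal.sum_le_tsum (f := fun y : {y // M.G.Reachable x y} => F x y) {a, b}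
      rw [Finset.sum_pair hab] at h2
      have h3 : F x a = 1 := hF1 x z hx hz
      have h4 : F x b = 1 := hF1 x z' hx hz'
      rw [h3, h4, one_add_one_eq_two] at h2
      exact h2
    · rw [Set.indicator_of_notMem hx]
      exact bot_le
  have hright : ∫⁻ x, ∑' y : {y // M.G.Reachable x y}, F y x ∂M.μ ≤ M.μ Z := by
    have h1 : M.μ Z = ∫⁻ x, Z.indicator (fun _ => 1) x ∂M.μ := by
      rw [lintegral_indicator_const hZm, one_mul]
    rw [h1]
    refine lintegral_mono fun x => ?_
    by_cases hx : x ∈ Z
    · rw [Set.indicator_of_mem hx]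
      by_cases hp : ∃ y : {y // M.G.Reachable x y}, Child M.G y.1 x
      · obtain ⟨y, hy⟩ := hp
        rw [tsum_eq_single y]
        · change Set.indicator _ _ _ ≤ _
          exact Set.indicator_le_self' (fun _ _ => bot_le) _
        · intro y' hy'
          apply hF0
          rintro ⟨_, h2⟩
          exact hy' (Subtype.ext ((hZreg x hx).2.2 _ _ h2 hy))
      · have h2 : ∀ y : {y // M.G.Reachable x y}, F y x = 0 := by
          intro y
          apply hF0
          rintro ⟨_, h3⟩
          exact hp ⟨y, h3⟩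
        rw [ENNReal.tsum_eq_zero.mpr h2]
        exact bot_le
    · rw [Set.indicator_of_notMem hx]
      have h2 : ∀ y : {y // M.G.Reachable x y}, F y x = 0 := by
        intro y
        apply hF0
        rintro ⟨h3, h4⟩
        exact hx (hZchild _ h3 _ h4)
      rw [ENNReal.tsum_eq_zero.mpr h2]
  have hZ0 : M.μ Z = 0 := by
    have h1 : 2 * M.μ Z ≤ M.μ Z := hleft.trans (hmt.le.trans hright)
    have h2 : M.μ Z ≠ ⊤ := measure_ne_top _ _
    by_contra hne
    have h3 : M.μ Z < 2 * M.μ Z := by
      rw [two_mul]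
      exact ENNReal.lt_add_right h2 hne
    exact absurd h1 (not_le.mpr h3)
  refine ⟨lab T (Child M.G) A, measurableSet_lab hTm hCm hAm, ?_⟩
  have h1 : ∀ᵐ v ∂M.μ, v ∉ Z := measure_eq_zero_iff_ae_notMem.mp hZ0
  filter_upwards [h1] with v hv
  rw [satisfiedAt_iff hG]
  apply rule_of_mem
  by_contra hcon
  push Not at hcon
  exact hv hcon

end Pool.Agent.LCL
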