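import Mathlib
import Pool.Agent.LCL.Circle

set_option autoImplicit false
set_option linter.unusedSectionVars false

/-!
The problem is not solvable on the measured graph `M0`.
-/

namespace Pool.Agent.LCL

open MeasureTheory
open scoped ENNReal

theorem ae_mu0 {P : Circ × Fin 3 → Prop} (h : ∀ᵐ v ∂mu0, P v) (i : Fin 3) :
    ∀ᵐ x : Circ, P (x, i) := by
  rw [ae_iff] at h ⊢
  exact mu0_eq_zero.mp h i

/-- Almost sure statements may be translated. -/
theorem ae_shift {P : Circ → Prop} (h : ∀ᵐ x : Circ, P x) (a : Circ) : ∀ᵐ x : Circ, P (x + a) :=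
  (measurePreserving_add_right volume a).quasiMeasurePreserving.ae h

/-- There is no measurable `l` with `l (x + th) = l x + s` almost surely, `s ≠ 0`. -/
theorem no_shift {l : Circ → ZMod 3} (hl : @Measurable _ _ _ ⊤ l) {s : ZMod 3} (hs : s ≠ 0)
    (h : ∀ᵐ x : Circ, l (x + th) = l x + s) : False := by
  let _ : MeasurableSpace (ZMod 3) := ⊤
  have h2 := ae_shift h th
  have h3 := ae_shift h2 th
  have h4 : l ∘ (fun x => x + 3 • th) =ᵐ[volume] l := by
    filter_upwards [h, h2, h3] with x a b c
    change l (x + 3 • th) = l x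
    have e : x + 3 • th = x + th + th + th := by
      rw [show (3 : ℕ) = 1 + 1 + 1 from rfl, add_smul, add_smul, one_smul]
      abel
    rw [e, c, b, a]
    have h0 : ∀ a : ZMod 3, a + a + a = 0 := by decide
    calc l x + s + s + s = l x + (s + s + s) := by ring
      _ = l x := by rw [h0, add_zero]
  obtain ⟨k, hk⟩ := ergodic_three_th.ae_eq_const_of_ae_eq_comp₀ hl.nullMeasurable h4
  have hk' := ae_shift hk th
  have h5 : ∀ᵐ x : Circ, False := by
    filter_upwards [h, hk, hk'] with x a b c
    rw [b, c] at a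
    exact hs (left_eq_add.mp a)
  rw [Filter.eventually_false_iff_eq_bot, ae_eq_bot] at h5
  have h6 : (volume : Measure Circ) Set.univ = 1 := UnitAddCircle.measure_univ
  rw [h5] at h6
  simp at h6

theorem not_solvable {Δ : ℕ} (hΔ : 4 ≤ Δ) : ¬ (theProblem Δ).SolvableOn (M0 Δ hΔ) := by
  rintro ⟨c0, hc0, hsat⟩
  have hex : ∃ c : Circ × Fin 3 → Lab, (∀ l : Lab, MeasurableSet (c ⁻¹' {l})) ∧
      ∀ᵐ v ∂mu0, Rule G0 c v := by
    refine ⟨c0, hc0, ?_⟩
    have h1 : ∀ᵐ v ∂mu0, (theProblem Δ).SatisfiedAt G0 c0 v := hsat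
    filter_upwards [h1] with v hv
    exact (satisfiedAt_iff (M0 Δ hΔ).degree_le c0 v).mp hv
  obtain ⟨c, hc', hrule⟩ := hex
  have hu : ∀ᵐ x : Circ, Rule G0 c (x, 0) := ae_mu0 hrule 0
  have hcs : ∀ S : Set Lab, MeasurableSet {x : Circ | c (x, 0) ∈ S} := by
    intro S
    have h1 : Measurable (fun x : Circ => (x, (0 : Fin 3))) := by fun_prop
    have h2 : {x : Circ | c (x, 0) ∈ S} = ⋃ l ∈ S, (fun x : Circ => (x, (0 : Fin 3))) ⁻¹'
        (c ⁻¹' {l}) := by
      ext x
      simp
    rw [h2]
    exact MeasurableSet.biUnion S.to_countable fun l _ => h1 (hc' l)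
  let mB : MeasurableSpace Bool := ⊤
  let mZ : MeasurableSpace (ZMod 3) := ⊤
  set b : Circ → Bool := fun x => (c (x, 0)).1 with hb
  set l : Circ → ZMod 3 := fun x => (c (x, 0)).2 with hl
  have hbm : Measurable b := fun S _ => hcs {p | p.1 ∈ S}
  have hlm : Measurable l := fun S _ => hcs {p | p.2 ∈ S}
  have hb1 : b ∘ (fun x => x + th) =ᵐ[volume] b := by
    filter_upwards [hu] with x hx
    exact (hx (regular_u x)).1 (x + th, 0) (adj_u.mpr (by simp)) (deg_u _)
  obtain ⟨b0, hb0⟩ := ergodic_th.ae_eq_const_of_ae_eq_comp₀ hbm.nullMeasurable hb1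
  have hb2 : ∀ᵐ x : Circ, ∀ z : Circ, 2 • z = x → b z = b0 := by
    have h1 : volume {z : Circ | ¬ b z = b0} = 0 := by
      have := ae_iff.mp hb0
      exact this
    have h2 := null_image_double h1
    rw [ae_iff]
    refine measure_mono_null ?_ h2
    intro x hx
    have hx' : ¬ ∀ z : Circ, 2 • z = x → b z = b0 := hx
    push Not at hx'
    obtain ⟨z, hz, hne⟩ := hx'
    exact ⟨z, hne, hz⟩
  have hstep : ∀ᵐ x : Circ, l (x + th) + 1 = l x ∨ l (x - th) + 1 = l x := by
    filter_upwards [hu, hb0, hb2] with x hx hbx hbz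
    rcases (hx (regular_u x)).2 with ⟨z, hz, hne⟩ | ⟨y, hy, hd, he⟩
    · obtain ⟨h1, h2⟩ := child_u_iff.mp hz
      have h3 : z = (z.1, 0) := Prod.ext rfl h1
      have h4 : b z.1 = b0 := hbz z.1 h2
      exfalso
      apply hne
      rw [h3]
      change b z.1 = b x
      rw [h4, hbx]
      rfl
    · rw [adj_u] at hy
      rcases hy with rfl | rfl | rfl | rfl
      · exact Or.inl he
      · exact Or.inr he
      · exact absurd (hd.unique (deg_m _)) (by norm_num)
      · exact absurd (hd.unique (deg_d _)) (by norm_num)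
  set R : Set Circ := {x | l (x + th) + 1 = l x} with hR
  have hRm : MeasurableSet R := by
    have h1 : Measurable (fun x : Circ => l (x + th)) :=
      hlm.comp (measurePreserving_add_right volume th).measurable
    have h2 : Measurable (fun x : Circ => (l (x + th), l x)) := h1.prodMk hlm
    exact h2 (MeasurableSet.of_discrete (s := {p : ZMod 3 × ZMod 3 | p.1 + 1 = p.2}))
  have hle : R ≤ᵐ[volume] (fun x : Circ => x + th) ⁻¹' R := by
    filter_upwards [ae_shift hstep th] with x hx hxR
    have hxR' : l (x + th) + 1 = l x := hxR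
    change l (x + th + th) + 1 = l (x + th)
    rcases hx with h | h
    · exact h
    · exfalso
      rw [add_sub_cancel_right] at h
      rw [← hxR'] at h
      have h3 : ∀ a : ZMod 3, a + 1 + 1 ≠ a := by decide
      exact h3 _ h
  rcases ergodic_th.ae_empty_or_univ_of_ae_le_preimage hRm.nullMeasurableSet hle with h | h
  · have h1 : ∀ᵐ x : Circ, l (x - th) + 1 = l x := by
      filter_upwards [hstep, h] with x hx hx'
      rcases hx with hx | hx
      · exact absurd (hx'.mp hx) (Set.notMem_empty x)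
      · exact hx
    have h2 := ae_shift h1 th
    refine no_shift (s := 1) hlm (by decide) ?_
    filter_upwards [h2] with x hx
    rw [add_sub_cancel_right] at hx
    exact hx.symm
  · refine no_shift (s := -1) hlm (by decide) ?_
    filter_upwards [h.mem_iff] with x hx
    have h1 : x ∈ R := hx.mpr trivial
    have h2 : l (x + th) + 1 = l x := h1
    rw [← h2]
    ring

end Pool.Agent.LCL
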